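import Pool.Agent.R842.CC.D

/-!
MP_cfec29_an: there is a convex-cyclic operator `T` on a complex Hilbert space such that `-T` is not
convex-cyclic.
-/

set_option autoImplicit false

namespace Pool.Agent.Results.MP_cfec29_an.NegConvexCyclic

open Filter Topology Set Complex
open scoped ComplexConjugate ENNReal InnerProductSpace
open Polynomial (aeval)
open Pool.Agent.R842.CC

/-- evaluation of a polynomial as a series in `v = z / (39 / 2)` -/
lemma eval_tsum (P : Polynomial ℝ) (v : ℂ) : (cx P).eval ((39 / 2 : ℂ) * v) =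
    ∑' n, ((P.coeff n * (39 / 2) ^ n : ℝ) : ℂ) * v ^ n := by
  rw [cx, Polynomial.eval_map, Polynomial.eval₂_eq_sum_range, tsum_eq_sum
    (s := Finset.range (P.natDegree + 1))]
  · refine Finset.sum_congr rfl fun n _ => ?_
    have : algebraMap ℝ ℂ (P.coeff n) = ((P.coeff n : ℝ) : ℂ) := rfl
    rw [this, mul_pow]
    push_cast
    ring
  · intro n hn
    rw [Finset.mem_range, not_lt] at hn
    rw [Polynomial.coeff_eq_zero_of_natDegree_lt (by omega)]
    simp

theorem not_convexCyclic_A : ¬ ConvexCyclic A := by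
  rintro ⟨y, hy⟩
  -- `y` has no zeros
  have hfree : ∀ w ∈ Metric.ball (0 : ℂ) 1, ev w y ≠ 0 := by
    intro w hw h0
    have hw' : ‖w‖ < 1 := mem_ball_zero_iff.1 hw
    have h1 : convexHull ℝ (range fun n : ℕ => (A ^ n) y) ⊆ {c | ev w c = 0} := by
      intro c hc
      obtain ⟨P, _, _, rfl⟩ := exists_poly A y hc
      show ev w _ = 0
      rw [ev_aeval hw', h0, mul_zero]
    have h2 : IsClosed {c : E | ev w c = 0} := isClosed_eq (ev w).continuous continuous_const
    have h3 : e0 ∈ {c : E | ev w c = 0} := closure_minimal h1 h2 (hy e0)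
    have h4 : ev w e0 = 0 := h3
    rw [ev_e0 hw'] at h4
    exact one_ne_zero h4
  obtain ⟨C0, hC0, hlow⟩ := lower_bound_fn (ev_diff y) hfree (norm_nonneg y)
    fun w hw => norm_ev_le (mem_ball_zero_iff.1 hw) y
  set C : ℝ := C0 + ‖y‖ + 1 with hC
  have hCpos : 0 < C := by positivity
  set M : ℝ := Real.exp (24 * (200 * C)) with hM
  -- bound for one polynomial
  have hbound : ∀ P : Polynomial ℝ, (∀ n, 0 ≤ P.coeff n) → P.eval 1 = 1 →
      ‖(aeval A (cx P)) y‖ ≤ ‖y‖ + 1 → P.eval (39 / 2) ≤ M := by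
    intro P hP hP1 hPy
    refine damping hP hP1 hCpos fun w hw => ?_
    have hw1 : 0 < 1 - ‖w‖ := by linarith
    have hw2 : 1 - ‖w‖ ≤ 1 := by linarith [norm_nonneg w]
    have h1 := norm_ev_le hw ((aeval A (cx P)) y)
    rw [ev_aeval hw, norm_mul] at h1
    have h2 := hlow w hw
    have h3 : ‖(cx P).eval (20 + I + w)‖ * Real.exp (-(C0 / (1 - ‖w‖) ^ 2)) ≤
        (‖y‖ + 1) / (1 - ‖w‖) := by
      calc ‖(cx P).eval (20 + I + w)‖ * Real.exp (-(C0 / (1 - ‖w‖) ^ 2))
          ≤ ‖(cx P).eval (20 + I + w)‖ * ‖ev w y‖ := by gcongr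
        _ ≤ ‖(aeval A (cx P)) y‖ / (1 - ‖w‖) := h1
        _ ≤ (‖y‖ + 1) / (1 - ‖w‖) := by gcongr
    have h4 : (‖y‖ + 1) / (1 - ‖w‖) ≤ (‖y‖ + 1) / (1 - ‖w‖) ^ 2 := by
      gcongr
      nlinarith
    have h5 : (‖y‖ + 1) / (1 - ‖w‖) ^ 2 ≤ Real.exp ((‖y‖ + 1) / (1 - ‖w‖) ^ 2) := by
      have := Real.add_one_le_exp ((‖y‖ + 1) / (1 - ‖w‖) ^ 2)
      linarith
    rw [Real.exp_neg, ← div_eq_mul_inv, div_le_iff₀ (Real.exp_pos _)] at h3
    calc ‖(cx P).eval (20 + I + w)‖
        ≤ (‖y‖ + 1) / (1 - ‖w‖) * Real.exp (C0 / (1 - ‖w‖) ^ 2) := h3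
      _ ≤ Real.exp ((‖y‖ + 1) / (1 - ‖w‖) ^ 2) * Real.exp (C0 / (1 - ‖w‖) ^ 2) := by
          gcongr
          exact h4.trans h5
      _ = Real.exp (C / (1 - ‖w‖) ^ 2) := by
          rw [← Real.exp_add, ← add_div, hC]
          congr 2
          ring
  -- the approximating sequence
  have hseq : ∀ k : ℕ, ∃ P : Polynomial ℝ, (∀ n, 0 ≤ P.coeff n) ∧ P.eval 1 = 1 ∧
      ‖(aeval A (cx P)) y + y‖ ≤ 1 / ((k : ℝ) + 1) := by
    intro k
    obtain ⟨c, hc1, hc2⟩ := hy.exists_dist_lt (-y) (show 0 < 1 / ((k : ℝ) + 1) by positivity)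
    obtain ⟨P, h1, h2, rfl⟩ := exists_poly A y hc1
    refine ⟨P, h1, h2, ?_⟩
    rw [dist_comm, dist_eq_norm, sub_neg_eq_add] at hc2
    exact hc2.le
  choose P hP hP1 hPy using hseq
  have hPM : ∀ k, (P k).eval (39 / 2) ≤ M := by
    intro k
    refine hbound (P k) (hP k) (hP1 k) ?_
    have h1 := hPy k
    have h2 : 1 / ((k : ℝ) + 1) ≤ 1 := by
      rw [div_le_one (by positivity)]
      have : (0 : ℝ) ≤ k := Nat.cast_nonneg k
      linarith
    have h3 : (aeval A (cx (P k))) y = ((aeval A (cx (P k))) y + y) - y := by abel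
    rw [h3]
    refine (norm_sub_le _ _).trans ?_
    linarith
  have hcoef : ∀ k n, (P k).coeff n * (39 / 2) ^ n ∈ Icc 0 M := by
    intro k n
    have h0 := hP k n
    refine ⟨by positivity, le_trans ?_ (hPM k)⟩
    by_cases hn : n ∈ Finset.range ((P k).natDegree + 1)
    · rw [Polynomial.eval_eq_sum_range]
      refine Finset.single_le_sum (f := fun n => (P k).coeff n * (39 / 2 : ℝ) ^ n)
        (fun m _ => ?_) hn
      have := hP k m
      positivity
    · rw [Finset.mem_range, not_lt] at hn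
      rw [Polynomial.coeff_eq_zero_of_natDegree_lt (by omega), zero_mul,
        Polynomial.eval_eq_sum_range]
      refine Finset.sum_nonneg fun m _ => ?_
      have := hP k m
      positivity
  have hM0 : 0 ≤ M := (Real.exp_pos _).le
  -- a convergent subsequence
  have hK : IsCompact (Set.pi univ fun _ : ℕ => Icc (0 : ℝ) M) :=
    isCompact_univ_pi fun _ => isCompact_Icc
  obtain ⟨b, hb, φ, hφ, hlim⟩ := hK.tendsto_subseq
    (x := fun k n => (P k).coeff n * (39 / 2 : ℝ) ^ n) fun k n _ => hcoef k n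
  rw [tendsto_pi_nhds] at hlim
  have hb' : ∀ n, b n ∈ Icc 0 M := fun n => hb n (mem_univ n)
  have hnb : ∀ n, ‖((b n : ℝ) : ℂ)‖ ≤ M := fun n => by
    rw [norm_real, Real.norm_of_nonneg (hb' n).1]; exact (hb' n).2
  have hconv : ∀ v : ℂ, ‖v‖ < 1 → Tendsto (fun k => (cx (P (φ k))).eval ((39 / 2 : ℂ) * v)) atTop
      (𝓝 (∑' n, ((b n : ℝ) : ℂ) * v ^ n)) := by
    intro v hv
    simp only [eval_tsum]
    refine tendsto_tsum_of_dominated_convergence (bound := fun n => M * ‖v‖ ^ n)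
      ((summable_geometric_of_lt_one (norm_nonneg _) hv).mul_left _) (fun n => ?_)
      (Eventually.of_forall fun k n => ?_)
    · exact ((continuous_ofReal.tendsto _).comp (hlim n)).mul_const _
    · rw [norm_mul, norm_pow, norm_real, Real.norm_of_nonneg (hcoef (φ k) n).1]
      gcongr
      exact (hcoef (φ k) n).2
  have hminus : ∀ v w : ℂ, ‖v‖ < 1 → ‖w‖ < 1 → (39 / 2 : ℂ) * v = 20 + I + w →
      ∑' n, ((b n : ℝ) : ℂ) * v ^ n = -1 := by
    intro v w hv hw hvw
    have h1 : Tendsto (fun k => (aeval A (cx (P (φ k)))) y + y) atTop (𝓝 0) := by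
      refine squeeze_zero_norm (fun k => hPy (φ k)) ?_
      exact tendsto_one_div_add_atTop_nhds_zero_nat.comp hφ.tendsto_atTop
    have h2 : Tendsto (fun k => ev w ((aeval A (cx (P (φ k)))) y + y)) atTop (𝓝 0) := by
      have := ((ev w).continuous.tendsto 0).comp h1
      rwa [map_zero] at this
    have h3 : ∀ k, ev w ((aeval A (cx (P (φ k)))) y + y) =
        ((cx (P (φ k))).eval ((39 / 2 : ℂ) * v) + 1) * ev w y := by
      intro k
      rw [map_add, ev_aeval hw, hvw]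
      ring
    simp only [h3] at h2
    have h4 := ((hconv v hv).add_const 1).mul_const (ev w y)
    have h5 := tendsto_nhds_unique h4 h2
    have h6 := hfree w (mem_ball_zero_iff.2 hw)
    rcases mul_eq_zero.1 h5 with h7 | h7
    · exact eq_neg_of_add_eq_zero_left h7
    · exact absurd h7 h6
  -- the identity theorem
  have hd := diff_tsum hnb
  have han : AnalyticOnNhd ℂ (fun v => ∑' n, ((b n : ℝ) : ℂ) * v ^ n) (Metric.ball 0 1) :=
    hd.analyticOnNhd Metric.isOpen_ball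
  have hcon : AnalyticOnNhd ℂ (fun _ : ℂ => (-1 : ℂ)) (Metric.ball 0 1) := analyticOnNhd_const
  set v0 : ℂ := (2 / 39 : ℂ) * (20 + I + (-(9 / 10) - I * (1 / 10))) with hv0
  have hv0a : ‖v0‖ < 1 := by
    have h1 : ‖v0‖ ^ 2 < 1 := by
      rw [← normSq_eq_norm_sq, hv0, map_mul, normSq_apply, normSq_apply]
      norm_num
    exact (sq_lt_one_iff₀ (norm_nonneg _)).1 h1
  have hw0 : ‖(39 / 2 : ℂ) * v0 - (20 + I)‖ < 1 := by
    have h1 : (39 / 2 : ℂ) * v0 - (20 + I) = -(9 / 10) - I * (1 / 10) := by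
      rw [hv0]; ring
    rw [h1]
    have h2 : ‖(-(9 / 10) - I * (1 / 10) : ℂ)‖ ^ 2 < 1 := by
      rw [← normSq_eq_norm_sq, normSq_apply]
      norm_num
    exact (sq_lt_one_iff₀ (norm_nonneg _)).1 h2
  have hev : (fun v => ∑' n, ((b n : ℝ) : ℂ) * v ^ n) =ᶠ[𝓝 v0] fun _ => (-1 : ℂ) := by
    have h1 : ∀ᶠ v in 𝓝 v0, ‖v‖ < 1 :=
      (isOpen_lt continuous_norm continuous_const).mem_nhds hv0a
    have h2 : ∀ᶠ v in 𝓝 v0, ‖(39 / 2 : ℂ) * v - (20 + I)‖ < 1 :=
      (isOpen_lt (by fun_prop) continuous_const).mem_nhds hw0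
    filter_upwards [h1, h2] with v hv1 hv2
    exact hminus v _ hv1 hv2 (by ring)
  have hEq := han.eqOn_of_preconnected_of_eventuallyEq hcon
    (convex_ball (0 : ℂ) 1).isPreconnected (mem_ball_zero_iff.2 hv0a) hev
  have h0 := hEq (Metric.mem_ball_self one_pos)
  have h1 : ∑' n, ((b n : ℝ) : ℂ) * (0 : ℂ) ^ n = ((b 0 : ℝ) : ℂ) := by
    rw [tsum_eq_single 0]
    · simp
    · intro n hn
      rw [zero_pow hn, mul_zero]
  have h2 : ((b 0 : ℝ) : ℂ) = -1 := by
    rw [← h1]; exact h0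
  have h3 : b 0 = -1 := by exact_mod_cast h2
  have := (hb' 0).1
  linarith

/-- **Answer (negative).** There are a complex Hilbert space `H` and a bounded linear operator `T` on
`H` which is convex-cyclic while `-T` is not convex-cyclic. -/
theorem result : ∃ (H : Type) (_ : NormedAddCommGroup H) (_ : InnerProductSpace ℂ H)
    (_ : CompleteSpace H) (T : H →L[ℂ] H), ConvexCyclic T ∧ ¬ ConvexCyclic (-T) := by
  refine ⟨E, inferInstance, inferInstance, inferInstance, T, convexCyclic_T, ?_⟩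
  have h : -T = A := by rw [T, neg_neg]; rfl
  rw [h]
  exact not_convexCyclic_A

end Pool.Agent.Results.MP_cfec29_an.NegConvexCyclic
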