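import Mathlib
import Pool.Agent.R644.CCd

set_option autoImplicit false

/-!
# A convex-cyclic operator `T` on a complex Hilbert space for which `-T` is not convex-cyclic

`H = ℓ²(ℕ)` and `T = -(100 + i) - S`, where `S` is the unilateral shift.
-/

namespace Pool.Agent.Results.MP_cfec29_an.NegativeNotConvexCyclic

/-- The bounded operator `T` is convex-cyclic: for some vector `x` the convex hull (real convex
combinations) of the orbit `x, T x, T² x, …` is dense. -/
def ConvexCyclic {H : Type} [NormedAddCommGroup H] [InnerProductSpace ℂ H] (T : H →L[ℂ] H) : Prop :=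
  ∃ x : H, Dense (convexHull ℝ (Set.range fun n : ℕ => (T ^ n) x))

/-- `T = -(100 + i) - S` for the unilateral shift `S` of the Hilbert basis `e`. -/
def IsOp {H : Type} [NormedAddCommGroup H] [InnerProductSpace ℂ H] (e : ℕ → H) (T : H →L[ℂ] H) :
    Prop :=
  Orthonormal ℂ e ∧ Dense (Submodule.span ℂ (Set.range e) : Set H) ∧
    ∀ n : ℕ, T (e n) = -((100 : ℂ) + Complex.I) • e n - e (n + 1)

open Pool.Agent.Helper280 in
lemma isOp : IsOp eb (-((100 : ℂ) + Complex.I) • ContinuousLinearMap.id ℂ HH - S) := by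
  refine ⟨?_, ?_, ?_⟩
  · rw [orthonormal_iff_ite]
    intro i j
    rw [inner_eb_left, eb_apply]
  · rw [Metric.dense_iff]
    intro x r hr
    have h := Pool.Agent.R644.CC.hasSum_eb x
    have h1 := (Metric.tendsto_nhds.1 h.tendsto_sum_nat r hr).exists
    obtain ⟨N, hN⟩ := h1
    refine ⟨∑ i ∈ Finset.range N, (x : ℕ → ℂ) i • eb i, ?_, ?_⟩
    · exact hN
    · exact Submodule.sum_mem _ fun i _ => Submodule.smul_mem _ _ (Submodule.subset_span ⟨i, rfl⟩)
  · intro n
    change -((100 : ℂ) + Complex.I) • eb n - S (eb n) = _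
    rw [S_eb]

/-- There is a convex-cyclic bounded operator `T` on a complex Hilbert space such that `-T` is not
convex-cyclic; one may take `T = -(100 + i) - S` with `S` the unilateral shift. -/
theorem result : ∃ (H : Type) (_ : NormedAddCommGroup H) (_ : InnerProductSpace ℂ H)
    (_ : CompleteSpace H) (e : ℕ → H) (T : H →L[ℂ] H),
    IsOp e T ∧ ConvexCyclic T ∧ ¬ ConvexCyclic (-T) := by
  refine ⟨Pool.Agent.Helper280.HH, inferInstance, inferInstance, inferInstance, Pool.Agent.Helper280.eb,
    -((100 : ℂ) + Complex.I) • ContinuousLinearMap.id ℂ Pool.Agent.Helper280.HH - Pool.Agent.Helper280.S,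
    isOp, ?_, ?_⟩
  · refine ⟨Pool.Agent.Helper280.eb 0, ?_⟩
    apply Pool.Agent.R644.CC.convexCyclic 100 le_rfl
    refine ContinuousLinearMap.ext fun x => ?_
    change (-((100 : ℂ) + Complex.I)) • x - Pool.Agent.Helper280.S x =
      -((100 : ℝ) • x) - (Complex.I • x + Pool.Agent.Helper280.S x)
    have : (100 : ℝ) • x = (100 : ℂ) • x := by
      have h : ((100 : ℝ) : ℂ) • x = (100 : ℝ) • x := rfl
      rw [← h]; norm_num
    rw [this]
    module
  · rintro ⟨y, hy⟩
    refine Pool.Agent.R644.CC.not_convexCyclic 100 le_rfl _ ?_ y hy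
    refine ContinuousLinearMap.ext fun x => ?_
    change -((-((100 : ℂ) + Complex.I)) • x - Pool.Agent.Helper280.S x) =
      (100 : ℝ) • x + (Complex.I • x + Pool.Agent.Helper280.S x)
    have : (100 : ℝ) • x = (100 : ℂ) • x := by
      have h : ((100 : ℝ) : ℂ) • x = (100 : ℝ) • x := rfl
      rw [← h]; norm_num
    rw [this]
    module

end Pool.Agent.Results.MP_cfec29_an.NegativeNotConvexCyclic
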